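import Pool.Agent.H498R2.HS.Alg

/-!
ROOM HS (helper873): the curvature polynomial `PS` is equivariant under
`(x, y, v) ↦ (h x ḡ, h y ḡ, h v ḡ)`, `g`, `h` unit quaternions.
-/

set_option autoImplicit false
set_option linter.unusedSectionVars false
set_option linter.unusedSimpArgs false

namespace H498HS.Eqv

open H902HO H498HS

/-- rotations of triples -/
structure Rt {S : Type*} [Add S] [Sub S] [Mul S] [Neg S] (φ : T S → T S) : Prop where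
  add : ∀ a b, φ (a + b) = φ a + φ b
  neg : ∀ a, φ (-a) = -φ a
  smul : ∀ (c : S) a, φ (c • a) = c • φ a
  dot : ∀ a b, T.dot (φ a) (φ b) = T.dot a b
  cr : ∀ a b, T.cr (φ a) (φ b) = φ (T.cr a b)

/-- the rotation of the imaginary part of a quaternion -/
def qu {S : Type*} (φ : T S → T S) (a : Qt S) : Qt S := ⟨a.re, φ a.im⟩

/-- blockwise rotation -/
def bl {S : Type*} (φ : T S → T S) (a : M6 S) : M6 S := (φ a.1, φ a.2)

section ops

variable {S : Type*} [Add S] [Sub S] [Mul S] [Neg S] {φ : T S → T S}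

theorem BB_nat (h : Rt φ) (e f : S) (r a c : Qt S) (M : T S) :
    BB e f (qu φ r) (qu φ a) (qu φ c) (φ M) = φ (BB e f r a c M) := by
  simp only [BB, Qt.mulI, qu, Qt.ad, h.add, h.neg, h.smul, h.dot, h.cr]

theorem BT_nat (h : Rt φ) (e f : S) (r a c : Qt S) (M : T S) :
    BT e f (qu φ r) (qu φ a) (qu φ c) (φ M) = φ (BT e f r a c M) := by
  have h1 : T.dot (φ M) (c.re • φ r.im + -φ a.im) = T.dot M (c.re • r.im + -a.im) := by
    rw [← h.smul, ← h.neg, ← h.add, h.dot]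
  have h2 : ∀ u v : T S, T.dot (-φ u) (φ v) = T.dot (-u) v := by
    intro u v; rw [← h.neg, h.dot]
  have h3 : ∀ u v : T S, T.cr (-φ u) (φ v) = φ (T.cr (-u) v) := by
    intro u v; rw [← h.neg, h.cr]
  have h4 : ∀ u v : T S, T.dot (-φ u) (-φ v) = T.dot (-u) (-v) := by
    intro u v; rw [← h.neg, ← h.neg, h.dot]
  simp only [BT, Qt.mulI, qu, Qt.ad, Qt.adT, Qt.conj, h.add, h.neg, h.smul, h.dot, h.cr, h1, h2,
    h3, h4]

theorem imul_nat (h : Rt φ) (w : T S) (a : Qt S) :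
    Qt.imul (φ w) (qu φ a) = qu φ (Qt.imul w a) := by
  simp only [Qt.imul, qu, h.add, h.neg, h.smul, h.dot, h.cr]

theorem mulI_nat (h : Rt φ) (a : Qt S) (w : T S) :
    Qt.mulI (qu φ a) (φ w) = qu φ (Qt.mulI a w) := by
  simp only [Qt.mulI, qu, h.add, h.neg, h.smul, h.dot, h.cr]

theorem neg_nat (h : Rt φ) (a : Qt S) : (qu φ a).neg = qu φ a.neg := by
  simp only [Qt.neg, qu, h.neg]

theorem add_nat (h : Rt φ) (a b : Qt S) : (qu φ a).add (qu φ b) = qu φ (a.add b) := by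
  simp only [Qt.add, qu, h.add]

theorem dr_nat (h : Rt φ) (r : Qt S) (w : M6 S) : dr (qu φ r) (bl φ w) = qu φ (dr r w) := by
  simp only [dr, bl, imul_nat h, mulI_nat h, neg_nat h, add_nat h]

theorem da_nat (h : Rt φ) (a : Qt S) (w : T S) : da (qu φ a) (φ w) = qu φ (da a w) := by
  simp only [da, imul_nat h, neg_nat h]

end ops

section ring

variable {R : Type*} [CommRing R] {φ : T R → T R}

/-- real part of a dual vector -/
def duA (t : T (Du R)) : T R := ⟨t.x.a, t.y.a, t.z.a⟩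

/-- dual vector -/
def mkDu (a b : T R) : T (Du R) := ⟨⟨a.x, b.x⟩, ⟨a.y, b.y⟩, ⟨a.z, b.z⟩⟩

/-- extension to dual numbers -/
def duM (φ : T R → T R) (t : T (Du R)) : T (Du R) := mkDu (φ (duA t)) (φ (duB t))

theorem duA_mk (a b : T R) : duA (mkDu a b) = a := rfl
theorem duB_mk (a b : T R) : duB (mkDu a b) = b := rfl

theorem Du.add_a (p q : Du R) : (p + q).a = p.a + q.a := rfl
theorem Du.add_b (p q : Du R) : (p + q).b = p.b + q.b := rfl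
theorem Du.sub_a (p q : Du R) : (p - q).a = p.a - q.a := rfl
theorem Du.sub_b (p q : Du R) : (p - q).b = p.b - q.b := rfl
theorem Du.mul_a (p q : Du R) : (p * q).a = p.a * q.a := rfl
theorem Du.mul_b (p q : Du R) : (p * q).b = p.a * q.b + p.b * q.a := rfl

theorem duA_dot (s t : T (Du R)) : (T.dot s t).a = T.dot (duA s) (duA t) := rfl

theorem duB_dot (s t : T (Du R)) :
    (T.dot s t).b = T.dot (duA s) (duB t) + T.dot (duB s) (duA t) := by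
  simp only [T.dot, Du.add_b, Du.mul_b, duA, duB]; ring

theorem duA_cr (s t : T (Du R)) : duA (T.cr s t) = T.cr (duA s) (duA t) := rfl

theorem duB_cr (s t : T (Du R)) :
    duB (T.cr s t) = T.cr (duA s) (duB t) + T.cr (duB s) (duA t) := by
  refine T.ext ?_ ?_ ?_ <;>
    simp only [T.cr, T.add_x, T.add_y, T.add_z, Du.sub_b, Du.mul_b, duA, duB] <;> ring

theorem mkDu_eta (t : T (Du R)) : mkDu (duA t) (duB t) = t := rfl

theorem Rt.du (h : Rt φ) : Rt (duM φ) where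
  add a b := by
    change mkDu (φ (duA a + duA b)) (φ (duB a + duB b)) = _
    rw [h.add, h.add]; rfl
  neg a := by
    change mkDu (φ (-duA a)) (φ (-duB a)) = _
    rw [h.neg, h.neg]; rfl
  smul c a := by
    change mkDu (φ (c.a • duA a)) (φ (c.a • duB a + c.b • duA a)) = _
    rw [h.smul, h.add, h.smul, h.smul]; rfl
  dot a b := by
    refine Du.ext ?_ ?_
    · rw [duA_dot, duA_dot]; exact h.dot _ _
    · rw [duB_dot, duB_dot]
      change T.dot (φ _) (φ _) + T.dot (φ _) (φ _) = _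
      rw [h.dot, h.dot]
  cr a b := by
    rw [← mkDu_eta (T.cr (duM φ a) (duM φ b)), duA_cr, duB_cr]
    change mkDu (T.cr (φ _) (φ _)) (T.cr (φ _) (φ _) + T.cr (φ _) (φ _)) = _
    rw [h.cr, h.cr, h.cr, ← h.add, ← duA_cr, ← duB_cr]; rfl

/-! jets -/

def jtA (t : T (Jt R)) : T R := ⟨t.x.a, t.y.a, t.z.a⟩
def jtB (t : T (Jt R)) : T R := ⟨t.x.b, t.y.b, t.z.b⟩
def jtC (t : T (Jt R)) : T R := ⟨t.x.c, t.y.c, t.z.c⟩

/-- vector of jets -/
def mkJt (a b c d : T R) : T (Jt R) :=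
  ⟨⟨a.x, b.x, c.x, d.x⟩, ⟨a.y, b.y, c.y, d.y⟩, ⟨a.z, b.z, c.z, d.z⟩⟩

/-- extension to jets -/
def jtM (φ : T R → T R) (t : T (Jt R)) : T (Jt R) :=
  mkJt (φ (jtA t)) (φ (jtB t)) (φ (jtC t)) (φ (jtD t))

theorem Jt.add_a (p q : Jt R) : (p + q).a = p.a + q.a := rfl
theorem Jt.add_b (p q : Jt R) : (p + q).b = p.b + q.b := rfl
theorem Jt.add_c (p q : Jt R) : (p + q).c = p.c + q.c := rfl
theorem Jt.add_d (p q : Jt R) : (p + q).d = p.d + q.d := rfl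
theorem Jt.sub_a (p q : Jt R) : (p - q).a = p.a - q.a := rfl
theorem Jt.sub_b (p q : Jt R) : (p - q).b = p.b - q.b := rfl
theorem Jt.sub_c (p q : Jt R) : (p - q).c = p.c - q.c := rfl
theorem Jt.sub_d (p q : Jt R) : (p - q).d = p.d - q.d := rfl
theorem Jt.mul_a (p q : Jt R) : (p * q).a = p.a * q.a := rfl
theorem Jt.mul_b (p q : Jt R) : (p * q).b = p.a * q.b + p.b * q.a := rfl
theorem Jt.mul_c (p q : Jt R) : (p * q).c = p.a * q.c + p.c * q.a := rfl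
theorem Jt.mul_d (p q : Jt R) : (p * q).d = p.a * q.d + p.b * q.c + p.c * q.b + p.d * q.a := rfl

theorem jtA_dot (s t : T (Jt R)) : (T.dot s t).a = T.dot (jtA s) (jtA t) := rfl

theorem jtB_dot (s t : T (Jt R)) :
    (T.dot s t).b = T.dot (jtA s) (jtB t) + T.dot (jtB s) (jtA t) := by
  simp only [T.dot, Jt.add_b, Jt.mul_b, jtA, jtB]; ring

theorem jtC_dot (s t : T (Jt R)) :
    (T.dot s t).c = T.dot (jtA s) (jtC t) + T.dot (jtC s) (jtA t) := by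
  simp only [T.dot, Jt.add_c, Jt.mul_c, jtA, jtC]; ring

theorem jtD_dot (s t : T (Jt R)) :
    (T.dot s t).d = T.dot (jtA s) (jtD t) + T.dot (jtB s) (jtC t) + T.dot (jtC s) (jtB t) +
      T.dot (jtD s) (jtA t) := by
  simp only [T.dot, Jt.add_d, Jt.mul_d, jtA, jtB, jtC, jtD]; ring

theorem jtA_cr (s t : T (Jt R)) : jtA (T.cr s t) = T.cr (jtA s) (jtA t) := rfl

theorem jtB_cr (s t : T (Jt R)) :
    jtB (T.cr s t) = T.cr (jtA s) (jtB t) + T.cr (jtB s) (jtA t) := by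
  refine T.ext ?_ ?_ ?_ <;>
    simp only [T.cr, T.add_x, T.add_y, T.add_z, Jt.sub_b, Jt.mul_b, jtA, jtB] <;> ring

theorem jtC_cr (s t : T (Jt R)) :
    jtC (T.cr s t) = T.cr (jtA s) (jtC t) + T.cr (jtC s) (jtA t) := by
  refine T.ext ?_ ?_ ?_ <;>
    simp only [T.cr, T.add_x, T.add_y, T.add_z, Jt.sub_c, Jt.mul_c, jtA, jtC] <;> ring

theorem jtD_cr (s t : T (Jt R)) :
    jtD (T.cr s t) = T.cr (jtA s) (jtD t) + T.cr (jtB s) (jtC t) + T.cr (jtC s) (jtB t) +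
      T.cr (jtD s) (jtA t) := by
  refine T.ext ?_ ?_ ?_ <;>
    simp only [T.cr, T.add_x, T.add_y, T.add_z, Jt.sub_d, Jt.mul_d, jtA, jtB, jtC, jtD] <;> ring

theorem mkJt_eta (t : T (Jt R)) : mkJt (jtA t) (jtB t) (jtC t) (jtD t) = t := rfl

theorem Rt.jt (h : Rt φ) : Rt (jtM φ) where
  add a b := by
    change mkJt (φ (jtA a + jtA b)) (φ (jtB a + jtB b)) (φ (jtC a + jtC b))
      (φ (jtD a + jtD b)) = _
    rw [h.add, h.add, h.add, h.add]; rfl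
  neg a := by
    change mkJt (φ (-jtA a)) (φ (-jtB a)) (φ (-jtC a)) (φ (-jtD a)) = _
    rw [h.neg, h.neg, h.neg, h.neg]; rfl
  smul c a := by
    change mkJt (φ (c.a • jtA a)) (φ (c.a • jtB a + c.b • jtA a))
      (φ (c.a • jtC a + c.c • jtA a))
      (φ (c.a • jtD a + c.b • jtC a + c.c • jtB a + c.d • jtA a)) = _
    simp only [h.smul, h.add]; rfl
  dot a b := by
    refine Jt.ext ?_ ?_ ?_ ?_
    · rw [jtA_dot, jtA_dot]; exact h.dot _ _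
    · rw [jtB_dot, jtB_dot]
      change T.dot (φ _) (φ _) + T.dot (φ _) (φ _) = _
      rw [h.dot, h.dot]
    · rw [jtC_dot, jtC_dot]
      change T.dot (φ _) (φ _) + T.dot (φ _) (φ _) = _
      rw [h.dot, h.dot]
    · rw [jtD_dot, jtD_dot]
      change T.dot (φ _) (φ _) + T.dot (φ _) (φ _) + T.dot (φ _) (φ _) + T.dot (φ _) (φ _) = _
      rw [h.dot, h.dot, h.dot, h.dot]
  cr a b := by
    rw [← mkJt_eta (T.cr (jtM φ a) (jtM φ b)), jtA_cr, jtB_cr, jtC_cr, jtD_cr]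
    change mkJt (T.cr (φ _) (φ _)) (T.cr (φ _) (φ _) + T.cr (φ _) (φ _))
      (T.cr (φ _) (φ _) + T.cr (φ _) (φ _))
      (T.cr (φ _) (φ _) + T.cr (φ _) (φ _) + T.cr (φ _) (φ _) + T.cr (φ _) (φ _)) = _
    simp only [h.cr, ← h.add]
    rw [← jtA_cr, ← jtB_cr, ← jtC_cr, ← jtD_cr]; rfl

theorem Rt.zero (h : Rt φ) : φ ⟨0, 0, 0⟩ = ⟨0, 0, 0⟩ := by
  have h1 := h.smul 0 ⟨0, 0, 0⟩
  have e : (0 : R) • (⟨0, 0, 0⟩ : T R) = ⟨0, 0, 0⟩ := by
    refine T.ext ?_ ?_ ?_ <;> simp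
  have e2 : ∀ u : T R, (0 : R) • u = ⟨0, 0, 0⟩ := by
    intro u; refine T.ext ?_ ?_ ?_ <;> simp
  rw [e, e2] at h1
  exact h1

theorem duQ_nat (a b : Qt R) : duQ (qu φ a) (qu φ b) = qu (duM φ) (duQ a b) := rfl

theorem duV_nat (h : Rt φ) (a : T R) : duV 0 (φ a) = duM φ (duV 0 a) := by
  change duV 0 (φ a) = mkDu (φ a) (φ ⟨0, 0, 0⟩)
  rw [h.zero]; rfl

theorem jtQ_nat (a b c d : Qt R) :
    jtQ (qu φ a) (qu φ b) (qu φ c) (qu φ d) = qu (jtM φ) (jtQ a b c d) := rfl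

theorem jtV_nat (h : Rt φ) (a : T R) : jtV 0 (φ a) = jtM φ (jtV 0 a) := by
  change jtV 0 (φ a) = mkJt (φ a) (φ ⟨0, 0, 0⟩) (φ ⟨0, 0, 0⟩) (φ ⟨0, 0, 0⟩)
  rw [h.zero]; rfl

theorem duB_nat (t : T (Du R)) : duB (duM φ t) = φ (duB t) := rfl

theorem jtD_nat (t : T (Jt R)) : jtD (jtM φ t) = φ (jtD t) := rfl

theorem BB1_nat (h : Rt φ) (e f : R) (r a c : Qt R) (w : M6 R) (M : T R) :
    BB1 0 e f (qu φ r) (qu φ a) (qu φ c) (bl φ w) (φ M) = φ (BB1 0 e f r a c w M) := by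
  have e1 : (bl φ w).1 = φ w.1 := rfl
  have e2 : (bl φ w).2 = φ w.2 := rfl
  rw [BB1, BB1, dr_nat h, e1, e2, da_nat h, da_nat h, duQ_nat, duQ_nat, duQ_nat, duV_nat h,
    BB_nat h.du, duB_nat]

theorem BT1_nat (h : Rt φ) (e f : R) (r a c : Qt R) (w : M6 R) (M : T R) :
    BT1 0 e f (qu φ r) (qu φ a) (qu φ c) (bl φ w) (φ M) = φ (BT1 0 e f r a c w M) := by
  have e1 : (bl φ w).1 = φ w.1 := rfl
  have e2 : (bl φ w).2 = φ w.2 := rfl
  rw [BT1, BT1, dr_nat h, e1, e2, da_nat h, da_nat h, duQ_nat, duQ_nat, duQ_nat, duV_nat h,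
    BT_nat h.du, duB_nat]

theorem BB2_nat (h : Rt φ) (e f : R) (r a c : Qt R) (w w' : M6 R) (M : T R) :
    BB2 0 e f (qu φ r) (qu φ a) (qu φ c) (bl φ w) (bl φ w') (φ M) =
      φ (BB2 0 e f r a c w w' M) := by
  have e1 : ∀ w : M6 R, (bl φ w).1 = φ w.1 := fun _ => rfl
  have e2 : ∀ w : M6 R, (bl φ w).2 = φ w.2 := fun _ => rfl
  simp only [BB2, dr_nat h, e1, e2, da_nat h, imul_nat h, mulI_nat h, neg_nat h, add_nat h,
    jtQ_nat, jtV_nat h, BB_nat h.jt, jtD_nat]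

theorem BT2_nat (h : Rt φ) (e f : R) (r a c : Qt R) (w w' : M6 R) (M : T R) :
    BT2 0 e f (qu φ r) (qu φ a) (qu φ c) (bl φ w) (bl φ w') (φ M) =
      φ (BT2 0 e f r a c w w' M) := by
  have e1 : ∀ w : M6 R, (bl φ w).1 = φ w.1 := fun _ => rfl
  have e2 : ∀ w : M6 R, (bl φ w).2 = φ w.2 := fun _ => rfl
  simp only [BT2, dr_nat h, e1, e2, da_nat h, imul_nat h, mulI_nat h, neg_nat h, add_nat h,
    jtQ_nat, jtV_nat h, BT_nat h.jt, jtD_nat]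

/-- Compatible data: `φ` acts on body momenta, `ψ` on space momenta. -/
structure Cmp (φ ψ : T R → T R) (D D' : Par R) (x y x' y' : Qt R) : Prop where
  hφ : Rt φ
  hψ : Rt ψ
  x1 : ∀ L, Qt.ad x' (φ L) = ψ (Qt.ad x L)
  x2 : ∀ N, Qt.adT x' (ψ N) = φ (Qt.adT x N)
  y1 : ∀ L, Qt.ad y' (φ L) = ψ (Qt.ad y L)
  y2 : ∀ N, Qt.adT y' (ψ N) = φ (Qt.adT y N)
  W : ∀ L, D'.W.ap (φ L) = φ (D.W.ap L)
  U : ∀ N, D'.U.ap (ψ N) = ψ (D.U.ap N)
  A : ∀ N, D'.A.ap (ψ N) = φ (D.A.ap N)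
  AT : ∀ L, D'.A.apT (φ L) = ψ (D.A.apT L)
  e : D'.e = D.e
  f : D'.f = D.f
  l : D'.l = D.l

section cmp

variable {ψ : T R → T R} {D D' : Par R} {x y x' y' : Qt R}

theorem KU_nat (h : Cmp φ ψ D D' x y x' y') (α : M6 R) :
    KU D'.U x' y' (bl φ α) = bl φ (KU D.U x y α) := by
  simp only [KU, bl, h.x1, h.y1, ← h.hψ.add, h.U, h.x2, h.y2]

theorem bl_cx6 (h : Rt φ) (a b : M6 R) : cx6 (bl φ a) (bl φ b) = bl φ (cx6 a b) := by
  simp only [cx6, bl, h.cr]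

theorem bl_add6 (h : Rt φ) (a b : M6 R) : add6 (bl φ a) (bl φ b) = bl φ (add6 a b) := by
  simp only [add6, bl, h.add]

theorem bl_sub6 (h : Rt φ) (a b : M6 R) : sub6 (bl φ a) (bl φ b) = bl φ (sub6 a b) := by
  simp only [sub6, bl, h.add, h.neg]

theorem bl_dbl6 (h : Rt φ) (a : M6 R) : dbl6 (bl φ a) = bl φ (dbl6 a) := by
  simp only [dbl6, dbl, bl, h.add]

theorem bl_dt6 (h : Rt φ) (a b : M6 R) : dt6 (bl φ a) (bl φ b) = dt6 a b := by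
  simp only [dt6, bl, h.dot]

theorem KU1_nat (h : Cmp φ ψ D D' x y x' y') (w α : M6 R) :
    KU1 D'.U x' y' (bl φ w) (bl φ α) = bl φ (KU1 D.U x y w α) := by
  simp only [KU1, bl_cx6 h.hφ, KU_nat h, bl_sub6 h.hφ, bl_dbl6 h.hφ]

theorem KU2_nat (h : Cmp φ ψ D D' x y x' y') (w w' α : M6 R) :
    KU2 D'.U x' y' (bl φ w) (bl φ w') (bl φ α) = bl φ (KU2 D.U x y w w' α) := by
  simp only [KU2, bl_cx6 h.hφ, KU_nat h, bl_sub6 h.hφ, bl_dbl6 h.hφ, bl_add6 h.hφ]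

theorem KA1_nat (h : Cmp φ ψ D D' x y x' y') (w L : T R) :
    KA1 D'.A x' (φ w) (φ L) = φ (KA1 D.A x w L) := by
  simp only [KA1, dbl, h.hφ.cr, h.x1, h.A, h.AT, h.x2, ← h.hφ.neg, ← h.hφ.add]

theorem KA2_nat (h : Cmp φ ψ D D' x y x' y') (w w' L : T R) :
    KA2 D'.A x' (φ w) (φ w') (φ L) = φ (KA2 D.A x w w' L) := by
  simp only [KA2, dbl, h.hφ.cr, h.x1, h.A, h.AT, h.x2, ← h.hφ.neg, ← h.hφ.add]

theorem K0_nat (h : Cmp φ ψ D D' x y x' y') (r a c : Qt R) (α : M6 R) :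
    K0 D' x' y' (qu φ r) (qu φ a) (qu φ c) (bl φ α) = bl φ (K0 D x y r a c α) := by
  have e1 : ∀ w : M6 R, (bl φ w).1 = φ w.1 := fun _ => rfl
  have e2 : ∀ w : M6 R, (bl φ w).2 = φ w.2 := fun _ => rfl
  refine Prod.ext ?_ ?_
  · simp only [K0, KU_nat h, e1, e2, BB_nat h.hφ, h.e, h.f, h.l, h.x1, h.A, h.AT, h.x2,
      ← h.hφ.add, ← h.hφ.smul, h.W]
  · simp only [K0, KU_nat h, e1, e2, BT_nat h.hφ, h.e, h.f, h.l, ← h.hφ.add, h.W]

theorem K1_nat (h : Cmp φ ψ D D' x y x' y') (r a c : Qt R) (w α : M6 R) :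
    K1 0 D' x' y' (qu φ r) (qu φ a) (qu φ c) (bl φ w) (bl φ α) =
      bl φ (K1 0 D x y r a c w α) := by
  have e1 : ∀ w : M6 R, (bl φ w).1 = φ w.1 := fun _ => rfl
  have e2 : ∀ w : M6 R, (bl φ w).2 = φ w.2 := fun _ => rfl
  refine Prod.ext ?_ ?_
  · simp only [K1, KU1_nat h, BB1_nat h.hφ, h.e, h.f, h.l, e1, e2, KA1_nat h,
      ← h.hφ.add, ← h.hφ.smul]
  · simp only [K1, KU1_nat h, BT1_nat h.hφ, h.e, h.f, h.l, e1, e2, ← h.hφ.add]

theorem K2_nat (h : Cmp φ ψ D D' x y x' y') (r a c : Qt R) (w w' α : M6 R) :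
    K2 0 D' x' y' (qu φ r) (qu φ a) (qu φ c) (bl φ w) (bl φ w') (bl φ α) =
      bl φ (K2 0 D x y r a c w w' α) := by
  have e1 : ∀ w : M6 R, (bl φ w).1 = φ w.1 := fun _ => rfl
  have e2 : ∀ w : M6 R, (bl φ w).2 = φ w.2 := fun _ => rfl
  refine Prod.ext ?_ ?_
  · simp only [K2, KU2_nat h, BB2_nat h.hφ, h.e, h.f, h.l, e1, e2, KA2_nat h,
      ← h.hφ.add, ← h.hφ.smul]
  · simp only [K2, KU2_nat h, BT2_nat h.hφ, h.e, h.f, h.l, e1, e2, ← h.hφ.add]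

end cmp

/-! ### linearity -/

theorem Du.neg_a (p : Du R) : (-p).a = -p.a := rfl
theorem Du.neg_b (p : Du R) : (-p).b = -p.b := rfl

/-- scalar multiple of a quaternion -/
def qs (t : R) (a : Qt R) : Qt R := ⟨t * a.re, t • a.im⟩

/-- scalar multiple of a pair -/
def sm6 (t : R) (a : M6 R) : M6 R := (t • a.1, t • a.2)

theorem BB_lin (e f t : R) (r a c r1 a1 c1 r2 a2 c2 : Qt R) (M : T R) :
    duB (BB (⟨e, 0⟩ : Du R) ⟨f, 0⟩ (duQ r (r1.add (qs t r2))) (duQ a (a1.add (qs t a2)))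
      (duQ c (c1.add (qs t c2))) (duV 0 M)) =
    duB (BB (⟨e, 0⟩ : Du R) ⟨f, 0⟩ (duQ r r1) (duQ a a1) (duQ c c1) (duV 0 M)) +
    t • duB (BB (⟨e, 0⟩ : Du R) ⟨f, 0⟩ (duQ r r2) (duQ a a2) (duQ c c2) (duV 0 M)) := by
  refine T.ext ?_ ?_ ?_ <;>
  simp only [BB, duB, duQ, duV, Qt.mulI, Qt.add, qs, Qt.ad, T.add_x, T.add_y, T.add_z, T.smul_x,
    T.smul_y, T.smul_z, T.neg_x, T.neg_y, T.neg_z, T.dot, T.cr, Du.add_a, Du.add_b, Du.neg_a,
    Du.neg_b, Du.sub_a, Du.sub_b, Du.mul_a, Du.mul_b] <;> ring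

theorem BT_lin (e f t : R) (r a c r1 a1 c1 r2 a2 c2 : Qt R) (M : T R) :
    duB (BT (⟨e, 0⟩ : Du R) ⟨f, 0⟩ (duQ r (r1.add (qs t r2))) (duQ a (a1.add (qs t a2)))
      (duQ c (c1.add (qs t c2))) (duV 0 M)) =
    duB (BT (⟨e, 0⟩ : Du R) ⟨f, 0⟩ (duQ r r1) (duQ a a1) (duQ c c1) (duV 0 M)) +
    t • duB (BT (⟨e, 0⟩ : Du R) ⟨f, 0⟩ (duQ r r2) (duQ a a2) (duQ c c2) (duV 0 M)) := by
  refine T.ext ?_ ?_ ?_ <;>
  simp only [BT, duB, duQ, duV, Qt.mulI, Qt.add, qs, Qt.ad, Qt.adT, Qt.conj, T.add_x, T.add_y,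
    T.add_z, T.smul_x,
    T.smul_y, T.smul_z, T.neg_x, T.neg_y, T.neg_z, T.dot, T.cr, Du.add_a, Du.add_b, Du.neg_a,
    Du.neg_b, Du.sub_a, Du.sub_b, Du.mul_a, Du.mul_b] <;> ring

theorem dr_lin (r : Qt R) (a b : M6 R) (t : R) :
    dr r (add6 a (sm6 t b)) = (dr r a).add (qs t (dr r b)) := by
  refine Qt.ext ?_ (T.ext ?_ ?_ ?_) <;>
  simp only [dr, add6, sm6, qs, Qt.imul, Qt.mulI, Qt.neg, Qt.add, T.add_x, T.add_y, T.add_z,
    T.smul_x, T.smul_y, T.smul_z, T.neg_x, T.neg_y, T.neg_z, T.dot, T.cr] <;> ring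

theorem da_lin (r : Qt R) (a b : T R) (t : R) :
    da r (a + t • b) = (da r a).add (qs t (da r b)) := by
  refine Qt.ext ?_ (T.ext ?_ ?_ ?_) <;>
  simp only [da, add6, sm6, qs, Qt.imul, Qt.mulI, Qt.neg, Qt.add, T.add_x, T.add_y, T.add_z,
    T.smul_x, T.smul_y, T.smul_z, T.neg_x, T.neg_y, T.neg_z, T.dot, T.cr] <;> ring

theorem BB1_lin (e f : R) (r a c : Qt R) (w w' : M6 R) (t : R) (M : T R) :
    BB1 0 e f r a c (add6 w (sm6 t w')) M = BB1 0 e f r a c w M + t • BB1 0 e f r a c w' M := by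
  simp only [BB1, dr_lin]
  change duB (BB _ _ _ (duQ a (da a (w.1 + t • w'.1))) (duQ c (da c (w.2 + t • w'.2))) _) = _
  rw [da_lin, da_lin, BB_lin]

theorem BT1_lin (e f : R) (r a c : Qt R) (w w' : M6 R) (t : R) (M : T R) :
    BT1 0 e f r a c (add6 w (sm6 t w')) M = BT1 0 e f r a c w M + t • BT1 0 e f r a c w' M := by
  simp only [BT1, dr_lin]
  change duB (BT _ _ _ (duQ a (da a (w.1 + t • w'.1))) (duQ c (da c (w.2 + t • w'.2))) _) = _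
  rw [da_lin, da_lin, BT_lin]

theorem KU_lin (U : Sym R) (x y : Qt R) (a b : M6 R) (t : R) :
    KU U x y (add6 a (sm6 t b)) = add6 (KU U x y a) (sm6 t (KU U x y b)) := by
  have hap : ∀ (u v : T R), U.ap (u + t • v) = U.ap u + t • U.ap v := by
    intro u v
    refine T.ext ?_ ?_ ?_ <;>
    simp only [Sym.ap, T.add_x, T.add_y, T.add_z, T.smul_x, T.smul_y, T.smul_z] <;> ring
  have had : ∀ (q : Qt R) (u v : T R), Qt.ad q (u + t • v) = Qt.ad q u + t • Qt.ad q v := by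
    intro q u v
    refine T.ext ?_ ?_ ?_ <;>
    simp only [Qt.ad, T.add_x, T.add_y, T.add_z, T.smul_x, T.smul_y, T.smul_z, T.dot, T.cr] <;>
    ring
  have hs : ∀ (p q u v : T R), (p + t • q) + (u + t • v) = (p + u) + t • (q + v) := by
    intro p q u v
    refine T.ext ?_ ?_ ?_ <;>
    simp only [T.add_x, T.add_y, T.add_z, T.smul_x, T.smul_y, T.smul_z] <;> ring
  simp only [KU, add6, sm6, had, hs, hap, Qt.adT]

theorem cx6_lin (d a b : M6 R) (t : R) :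
    cx6 d (add6 a (sm6 t b)) = add6 (cx6 d a) (sm6 t (cx6 d b)) := by
  refine Prod.ext (T.ext ?_ ?_ ?_) (T.ext ?_ ?_ ?_) <;>
  simp only [cx6, add6, sm6, T.add_x, T.add_y, T.add_z, T.smul_x, T.smul_y, T.smul_z, T.cr] <;>
  ring

theorem cx6_lin' (d a b : M6 R) (t : R) :
    cx6 (add6 a (sm6 t b)) d = add6 (cx6 a d) (sm6 t (cx6 b d)) := by
  refine Prod.ext (T.ext ?_ ?_ ?_) (T.ext ?_ ?_ ?_) <;>
  simp only [cx6, add6, sm6, T.add_x, T.add_y, T.add_z, T.smul_x, T.smul_y, T.smul_z, T.cr] <;>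
  ring

theorem dt6_lin (d a b : M6 R) (t : R) :
    dt6 d (add6 a (sm6 t b)) = dt6 d a + t * dt6 d b := by
  simp only [dt6, add6, sm6, T.add_x, T.add_y, T.add_z, T.smul_x, T.smul_y, T.smul_z, T.dot]
  ring

theorem dt6_lin' (d a b : M6 R) (t : R) :
    dt6 (add6 a (sm6 t b)) d = dt6 a d + t * dt6 b d := by
  simp only [dt6, add6, sm6, T.add_x, T.add_y, T.add_z, T.smul_x, T.smul_y, T.smul_z, T.dot]
  ring

theorem dbl_sub_lin (p q u v : M6 R) (t : R) :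
    dbl6 (sub6 (add6 p (sm6 t q)) (add6 u (sm6 t v))) =
      add6 (dbl6 (sub6 p u)) (sm6 t (dbl6 (sub6 q v))) := by
  refine Prod.ext (T.ext ?_ ?_ ?_) (T.ext ?_ ?_ ?_) <;>
  simp only [dbl6, dbl, sub6, add6, sm6, T.add_x, T.add_y, T.add_z, T.smul_x, T.smul_y, T.smul_z,
    T.neg_x, T.neg_y, T.neg_z] <;> ring

theorem KU1_lin (U : Sym R) (x y : Qt R) (a b d : M6 R) (t : R) :
    KU1 U x y (add6 a (sm6 t b)) d = add6 (KU1 U x y a d) (sm6 t (KU1 U x y b d)) := by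
  simp only [KU1, cx6_lin', KU_lin, dbl_sub_lin]

theorem KA1_lin (A : Mat R) (x : Qt R) (a b L : T R) (t : R) :
    KA1 A x (a + t • b) L = KA1 A x a L + t • KA1 A x b L := by
  refine T.ext ?_ ?_ ?_ <;>
  simp only [KA1, dbl, Mat.ap, Mat.apT, Qt.ad, Qt.adT, Qt.conj, T.add_x, T.add_y, T.add_z,
    T.smul_x, T.smul_y, T.smul_z, T.dot, T.cr, T.neg_x, T.neg_y, T.neg_z] <;> ring

/-- linear functionals -/
def Lin (F : M6 R → R) : Prop := ∀ a b t, F (add6 a (sm6 t b)) = F a + t * F b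

/-- linear maps -/
def LinV (F : M6 R → M6 R) : Prop := ∀ a b t, F (add6 a (sm6 t b)) = add6 (F a) (sm6 t (F b))

theorem K0_lin (D : Par R) (x y r a c : Qt R) : LinV (K0 D x y r a c) := by
  intro p q t
  have hap : ∀ (U : Sym R) (u v : T R), U.ap (u + t • v) = U.ap u + t • U.ap v := by
    intro U u v
    refine T.ext ?_ ?_ ?_ <;>
    simp only [Sym.ap, T.add_x, T.add_y, T.add_z, T.smul_x, T.smul_y, T.smul_z] <;> ring
  have had : ∀ (q : Qt R) (u v : T R), Qt.ad q (u + t • v) = Qt.ad q u + t • Qt.ad q v := by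
    intro q u v
    refine T.ext ?_ ?_ ?_ <;>
    simp only [Qt.ad, T.add_x, T.add_y, T.add_z, T.smul_x, T.smul_y, T.smul_z, T.dot, T.cr] <;>
    ring
  have hs : ∀ (p q u v : T R), (p + t • q) + (u + t • v) = (p + u) + t • (q + v) := by
    intro p q u v
    refine T.ext ?_ ?_ ?_ <;>
    simp only [T.add_x, T.add_y, T.add_z, T.smul_x, T.smul_y, T.smul_z] <;> ring
  have hA : ∀ (u v : T R), D.A.ap (u + t • v) = D.A.ap u + t • D.A.ap v := by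
    intro u v
    refine T.ext ?_ ?_ ?_ <;>
    simp only [Mat.ap, T.dot, T.add_x, T.add_y, T.add_z, T.smul_x, T.smul_y, T.smul_z] <;> ring
  have hAT : ∀ (u v : T R), D.A.apT (u + t • v) = D.A.apT u + t • D.A.apT v := by
    intro u v
    refine T.ext ?_ ?_ ?_ <;>
    simp only [Mat.apT, T.dot, T.add_x, T.add_y, T.add_z, T.smul_x, T.smul_y, T.smul_z] <;> ring
  have hl : ∀ (s : R) (u v : T R), s • (u + t • v) = s • u + t • (s • v) := by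
    intro s u v
    refine T.ext ?_ ?_ ?_ <;>
    simp only [T.add_x, T.add_y, T.add_z, T.smul_x, T.smul_y, T.smul_z] <;> ring
  have hBB : ∀ (u v : T R), BB D.e D.f r a c (u + t • v) =
      BB D.e D.f r a c u + t • BB D.e D.f r a c v := by
    intro u v
    refine T.ext ?_ ?_ ?_ <;>
    simp only [BB, Qt.mulI, Qt.ad, T.add_x, T.add_y, T.add_z, T.smul_x, T.smul_y, T.smul_z,
      T.dot, T.cr, T.neg_x, T.neg_y, T.neg_z] <;> ring
  have hBT : ∀ (u v : T R), BT D.e D.f r a c (u + t • v) =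
      BT D.e D.f r a c u + t • BT D.e D.f r a c v := by
    intro u v
    refine T.ext ?_ ?_ ?_ <;>
    simp only [BT, Qt.mulI, Qt.ad, Qt.adT, Qt.conj, T.add_x, T.add_y, T.add_z, T.smul_x, T.smul_y,
      T.smul_z, T.dot, T.cr, T.neg_x, T.neg_y, T.neg_z] <;> ring
  simp only [K0, KU_lin]
  simp only [add6, sm6, hap, had, hs, hA, hAT, hl, hBB, hBT, Qt.adT]

theorem K1_lin (D : Par R) (x y r a c : Qt R) (d : M6 R) :
    LinV (fun w => K1 0 D x y r a c w d) := by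
  intro p q t
  have hs : ∀ (p q u v : T R), (p + t • q) + (u + t • v) = (p + u) + t • (q + v) := by
    intro p q u v
    refine T.ext ?_ ?_ ?_ <;>
    simp only [T.add_x, T.add_y, T.add_z, T.smul_x, T.smul_y, T.smul_z] <;> ring
  have hl : ∀ (s : R) (u v : T R), s • (u + t • v) = s • u + t • (s • v) := by
    intro s u v
    refine T.ext ?_ ?_ ?_ <;>
    simp only [T.add_x, T.add_y, T.add_z, T.smul_x, T.smul_y, T.smul_z] <;> ring
  have e1 : (add6 p (sm6 t q)).1 = p.1 + t • q.1 := rfl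
  simp only [K1, KU1_lin, BB1_lin, BT1_lin, e1, KA1_lin]
  simp only [add6, sm6, hl, hs]

/-- linear cometric jets -/
structure KLin (k0 : M6 R → M6 R) (k1 : M6 R → M6 R → M6 R) : Prop where
  l0 : LinV k0
  l1 : ∀ d, LinV (fun w => k1 w d)

theorem g1_lin {k0 : M6 R → M6 R} {k1 : M6 R → M6 R → M6 R} (h : KLin k0 k1) (c d : M6 R) :
    Lin (g1 k0 k1 c d) := by
  intro a b t
  have h1 := h.l1 d a b t
  simp only at h1
  simp only [g1, cx6_lin, dt6_lin', h1, dt6_lin, h.l0 _ _ t]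
  ring

theorem dt6_gr {F : M6 R → R} (hF : Lin F) (w : M6 R) : dt6 (gr 0 1 F) w = F w := by
  have h0 : F (⟨0, 0, 0⟩, ⟨0, 0, 0⟩) = 0 := by
    have h1 := hF (⟨0, 0, 0⟩, ⟨0, 0, 0⟩) (⟨0, 0, 0⟩, ⟨0, 0, 0⟩) 1
    have e : add6 ((⟨0, 0, 0⟩, ⟨0, 0, 0⟩) : M6 R) (sm6 1 (⟨0, 0, 0⟩, ⟨0, 0, 0⟩)) =
        (⟨0, 0, 0⟩, ⟨0, 0, 0⟩) := by
      refine Prod.ext (T.ext ?_ ?_ ?_) (T.ext ?_ ?_ ?_) <;> simp [add6, sm6]
    rw [e] at h1
    simpa using h1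
  have e : w = add6 (add6 (add6 (add6 (add6 (add6 ((⟨0, 0, 0⟩, ⟨0, 0, 0⟩) : M6 R)
      (sm6 w.1.x (⟨1, 0, 0⟩, ⟨0, 0, 0⟩))) (sm6 w.1.y (⟨0, 1, 0⟩, ⟨0, 0, 0⟩)))
      (sm6 w.1.z (⟨0, 0, 1⟩, ⟨0, 0, 0⟩))) (sm6 w.2.x (⟨0, 0, 0⟩, ⟨1, 0, 0⟩)))
      (sm6 w.2.y (⟨0, 0, 0⟩, ⟨0, 1, 0⟩))) (sm6 w.2.z (⟨0, 0, 0⟩, ⟨0, 0, 1⟩)) := by
    refine Prod.ext (T.ext ?_ ?_ ?_) (T.ext ?_ ?_ ?_) <;> simp [add6, sm6]
  conv_rhs => rw [e]
  simp only [hF _ _ _, h0, dt6, gr, T.dot]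
  ring

theorem dt6_ext {a b : M6 R} (h : ∀ w, dt6 a w = dt6 b w) : a = b := by
  refine Prod.ext (T.ext ?_ ?_ ?_) (T.ext ?_ ?_ ?_)
  · simpa [dt6, T.dot] using h (⟨1, 0, 0⟩, ⟨0, 0, 0⟩)
  · simpa [dt6, T.dot] using h (⟨0, 1, 0⟩, ⟨0, 0, 0⟩)
  · simpa [dt6, T.dot] using h (⟨0, 0, 1⟩, ⟨0, 0, 0⟩)
  · simpa [dt6, T.dot] using h (⟨0, 0, 0⟩, ⟨1, 0, 0⟩)
  · simpa [dt6, T.dot] using h (⟨0, 0, 0⟩, ⟨0, 1, 0⟩)
  · simpa [dt6, T.dot] using h (⟨0, 0, 0⟩, ⟨0, 0, 1⟩)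

theorem bl_gr (h : Rt φ) {φi : T R → T R} (hi : ∀ a, φ (φi a) = a) {F F' : M6 R → R}
    (hF : Lin F) (hF' : Lin F') (e : ∀ w, F' (bl φ w) = F w) : gr 0 1 F' = bl φ (gr 0 1 F) := by
  apply dt6_ext
  intro w
  have hw : bl φ (bl φi w) = w := Prod.ext (hi _) (hi _)
  rw [dt6_gr hF']
  conv_lhs => rw [← hw]
  conv_rhs => rw [← hw]
  rw [e, bl_dt6 h, dt6_gr hF]

section pm

variable {k0 k0' : M6 R → M6 R} {k1 k1' : M6 R → M6 R → M6 R}
  {k2 k2' : M6 R → M6 R → M6 R → M6 R}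

theorem bl_dd (h : Rt φ) (a w w' : M6 R) : dd (bl φ a) (bl φ w) (bl φ w') = bl φ (dd a w w') := by
  simp only [dd, bl, cx6, sub6, h.cr, h.dot, h.smul, h.add, h.neg]

theorem bl_g1 (h : Rt φ) (h0 : ∀ a, k0' (bl φ a) = bl φ (k0 a))
    (h1 : ∀ w a, k1' (bl φ w) (bl φ a) = bl φ (k1 w a)) (c d w : M6 R) :
    g1 k0' k1' (bl φ c) (bl φ d) (bl φ w) = g1 k0 k1 c d w := by
  simp only [g1, bl_cx6 h, h0, h1, bl_dt6 h]

theorem bl_g2 (h : Rt φ) (h0 : ∀ a, k0' (bl φ a) = bl φ (k0 a))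
    (h1 : ∀ w a, k1' (bl φ w) (bl φ a) = bl φ (k1 w a))
    (h2 : ∀ w w' a, k2' (bl φ w) (bl φ w') (bl φ a) = bl φ (k2 w w' a)) (c d w w' : M6 R) :
    g2 k0' k1' k2' (bl φ c) (bl φ d) (bl φ w) (bl φ w') = g2 k0 k1 k2 c d w w' := by
  simp only [g2, bl_cx6 h, bl_dd h, h0, h1, h2, bl_dt6 h]

theorem bl_gk (h : Rt φ) (h0 : ∀ a, k0' (bl φ a) = bl φ (k0 a))
    (h1 : ∀ w a, k1' (bl φ w) (bl φ a) = bl φ (k1 w a)) (d w : M6 R) :
    gk k0' k1' (bl φ d) (bl φ w) = bl φ (gk k0 k1 d w) := by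
  simp only [gk, bl_cx6 h, h0, h1, bl_add6 h]

/-- Equivariance of `PM`. -/
theorem bl_PM (h : Rt φ) {φi : T R → T R} (hi : ∀ a, φ (φi a) = a) (hK : KLin k0 k1)
    (hK' : KLin k0' k1') (h0 : ∀ a, k0' (bl φ a) = bl φ (k0 a))
    (h1 : ∀ w a, k1' (bl φ w) (bl φ a) = bl φ (k1 w a))
    (h2 : ∀ w w' a, k2' (bl φ w) (bl φ w') (bl φ a) = bl φ (k2 w w' a)) (α β Γ : M6 R) :
    PM 0 1 k0' k1' k2' (bl φ α) (bl φ β) (bl φ Γ) = PM 0 1 k0 k1 k2 α β Γ := by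
  have hg : ∀ c d : M6 R, gr 0 1 (g1 k0' k1' (bl φ c) (bl φ d)) = bl φ (gr 0 1 (g1 k0 k1 c d)) :=
    fun c d => bl_gr h hi (g1_lin hK c d) (g1_lin hK' _ _) (fun w => bl_g1 h h0 h1 c d w)
  simp only [PM, bl_cx6 h, bl_g1 h h0 h1, bl_g2 h h0 h1 h2, bl_gk h h0 h1, h0, hg,
    bl_dbl6 h, bl_sub6 h, bl_add6 h, bl_dt6 h]

end pm

/-! ### quaternions -/

/-- the group action on points: `h x ḡ` -/
def act (g h x : Qt R) : Qt R := (h.mul x).mul g.conj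

theorem ad_mul (p q : Qt R) (M : T R) : Qt.ad (p.mul q) M = Qt.ad p (Qt.ad q M) := by
  refine T.ext ?_ ?_ ?_ <;>
  simp only [Qt.ad, Qt.mul, T.add_x, T.add_y, T.add_z, T.smul_x, T.smul_y, T.smul_z, T.dot,
    T.cr] <;> ring

theorem conj_mul (p q : Qt R) : (p.mul q).conj = q.conj.mul p.conj := by
  refine Qt.ext ?_ (T.ext ?_ ?_ ?_) <;>
  simp only [Qt.conj, Qt.mul, T.add_x, T.add_y, T.add_z, T.smul_x, T.smul_y, T.smul_z, T.dot,
    T.cr, T.neg_x, T.neg_y, T.neg_z] <;> ring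

theorem conj_conj (p : Qt R) : p.conj.conj = p := by
  refine Qt.ext ?_ (T.ext ?_ ?_ ?_) <;> simp [Qt.conj]

theorem mul_assoc' (p q r : Qt R) : (p.mul q).mul r = p.mul (q.mul r) := by
  refine Qt.ext ?_ (T.ext ?_ ?_ ?_) <;>
  simp only [Qt.mul, T.add_x, T.add_y, T.add_z, T.smul_x, T.smul_y, T.smul_z, T.dot,
    T.cr] <;> ring

/-- the quaternion one -/
def one : Qt R := ⟨1, ⟨0, 0, 0⟩⟩

theorem conj_mul_self {g : Qt R} (hg : Qt.dot g g = 1) : g.conj.mul g = one := by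
  simp only [Qt.dot, T.dot] at hg
  refine Qt.ext ?_ (T.ext ?_ ?_ ?_) <;>
  simp only [Qt.conj, Qt.mul, one, T.add_x, T.add_y, T.add_z, T.smul_x, T.smul_y, T.smul_z, T.dot,
    T.cr, T.neg_x, T.neg_y, T.neg_z]
  · linear_combination hg
  · ring
  · ring
  · ring

theorem mul_conj_self {g : Qt R} (hg : Qt.dot g g = 1) : g.mul g.conj = one := by
  simp only [Qt.dot, T.dot] at hg
  refine Qt.ext ?_ (T.ext ?_ ?_ ?_) <;>
  simp only [Qt.conj, Qt.mul, one, T.add_x, T.add_y, T.add_z, T.smul_x, T.smul_y, T.smul_z, T.dot,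
    T.cr, T.neg_x, T.neg_y, T.neg_z]
  · linear_combination hg
  · ring
  · ring
  · ring

theorem one_mul' (p : Qt R) : one.mul p = p := by
  refine Qt.ext ?_ (T.ext ?_ ?_ ?_) <;>
  simp [Qt.mul, one, T.dot, T.cr]

theorem mul_one' (p : Qt R) : p.mul one = p := by
  refine Qt.ext ?_ (T.ext ?_ ?_ ?_) <;>
  simp [Qt.mul, one, T.dot, T.cr]

theorem ad_one (M : T R) : Qt.ad one M = M := by
  refine T.ext ?_ ?_ ?_ <;>
  simp [Qt.ad, one, T.dot, T.cr]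

theorem dot_conj (g : Qt R) : Qt.dot g.conj g.conj = Qt.dot g g := by
  simp [Qt.dot, Qt.conj, T.dot]

theorem dot_mul (p q : Qt R) : Qt.dot (p.mul q) (p.mul q) = Qt.dot p p * Qt.dot q q := by
  simp only [Qt.dot, Qt.mul, T.add_x, T.add_y, T.add_z, T.smul_x, T.smul_y, T.smul_z, T.dot,
    T.cr]
  ring

theorem dot_act {g h : Qt R} (hg : Qt.dot g g = 1) (hh : Qt.dot h h = 1) (x : Qt R) :
    Qt.dot (act g h x) (act g h x) = Qt.dot x x := by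
  rw [act, dot_mul, dot_mul, dot_conj, hg, hh, one_mul, mul_one]

theorem rt_ad {g : Qt R} (hg : Qt.dot g g = 1) : Rt (Qt.ad g) where
  add a b := by
    refine T.ext ?_ ?_ ?_ <;>
    simp only [Qt.ad, T.add_x, T.add_y, T.add_z, T.smul_x, T.smul_y, T.smul_z, T.dot, T.cr] <;>
    ring
  neg a := by
    refine T.ext ?_ ?_ ?_ <;>
    simp only [Qt.ad, T.add_x, T.add_y, T.add_z, T.smul_x, T.smul_y, T.smul_z, T.dot, T.cr,
      T.neg_x, T.neg_y, T.neg_z] <;>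
    ring
  smul c a := by
    refine T.ext ?_ ?_ ?_ <;>
    simp only [Qt.ad, T.add_x, T.add_y, T.add_z, T.smul_x, T.smul_y, T.smul_z, T.dot, T.cr] <;>
    ring
  dot a b := by
    have e : T.dot (Qt.ad g a) (Qt.ad g b) = Qt.dot g g ^ 2 * T.dot a b := by
      simp only [Qt.ad, Qt.dot, T.add_x, T.add_y, T.add_z, T.smul_x, T.smul_y, T.smul_z, T.dot,
        T.cr]
      ring
    rw [e, hg, one_pow, one_mul]
  cr a b := by
    have e : T.cr (Qt.ad g a) (Qt.ad g b) = Qt.dot g g • Qt.ad g (T.cr a b) := by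
      refine T.ext ?_ ?_ ?_ <;>
      simp only [Qt.ad, Qt.dot, T.add_x, T.add_y, T.add_z, T.smul_x, T.smul_y, T.smul_z, T.dot,
        T.cr] <;> ring
    rw [e, hg]
    refine T.ext ?_ ?_ ?_ <;> simp

theorem ad_adT {g : Qt R} (hg : Qt.dot g g = 1) (M : T R) : Qt.ad g (Qt.adT g M) = M := by
  rw [Qt.adT, ← ad_mul, mul_conj_self hg, ad_one]

theorem adT_ad {g : Qt R} (hg : Qt.dot g g = 1) (M : T R) : Qt.adT g (Qt.ad g M) = M := by
  rw [Qt.adT, ← ad_mul, conj_mul_self hg, ad_one]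

theorem conj_qu {g : Qt R} (hg : Qt.dot g g = 1) (q : Qt R) :
    (g.mul q).mul g.conj = qu (Qt.ad g) q := by
  simp only [Qt.dot, T.dot] at hg
  refine Qt.ext ?_ (T.ext ?_ ?_ ?_) <;>
  simp only [qu, Qt.ad, Qt.conj, Qt.mul, T.add_x, T.add_y, T.add_z, T.smul_x, T.smul_y, T.smul_z,
    T.dot, T.cr, T.neg_x, T.neg_y, T.neg_z]
  · linear_combination q.re * hg
  · ring
  · ring
  · ring

theorem act_conj_mul {g h : Qt R} (hg : Qt.dot g g = 1) (hh : Qt.dot h h = 1) (x y : Qt R) :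
    (act g h x).conj.mul (act g h y) = qu (Qt.ad g) (x.conj.mul y) := by
  rw [← conj_qu hg, act, act, conj_mul, conj_mul, conj_conj]
  have e : ((g.mul (x.conj.mul h.conj)).mul ((h.mul y).mul g.conj)) =
      (g.mul (x.conj.mul ((h.conj.mul h).mul y))).mul g.conj := by
    simp only [mul_assoc']
  rw [e, conj_mul_self hh, one_mul']

/-! ### rotated parameters -/

/-- first row of a linear map -/
def rx (φ : T R → T R) : T R := ⟨(φ ⟨1, 0, 0⟩).x, (φ ⟨0, 1, 0⟩).x, (φ ⟨0, 0, 1⟩).x⟩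
/-- second row of a linear map -/
def ry (φ : T R → T R) : T R := ⟨(φ ⟨1, 0, 0⟩).y, (φ ⟨0, 1, 0⟩).y, (φ ⟨0, 0, 1⟩).y⟩
/-- third row of a linear map -/
def rz (φ : T R → T R) : T R := ⟨(φ ⟨1, 0, 0⟩).z, (φ ⟨0, 1, 0⟩).z, (φ ⟨0, 0, 1⟩).z⟩

/-- `Φ W Φᵀ` -/
def rotS (φ : T R → T R) (W : Sym R) : Sym R :=
  ⟨T.dot (rx φ) (W.ap (rx φ)), T.dot (rx φ) (W.ap (ry φ)), T.dot (rx φ) (W.ap (rz φ)),
    T.dot (ry φ) (W.ap (ry φ)), T.dot (ry φ) (W.ap (rz φ)), T.dot (rz φ) (W.ap (rz φ))⟩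

/-- `Φ A Ψᵀ` -/
def rotM (φ ψ : T R → T R) (A : Mat R) : Mat R :=
  ⟨ψ (A.apT (rx φ)), ψ (A.apT (ry φ)), ψ (A.apT (rz φ))⟩

theorem rows (h : Rt φ) (M : T R) : φ M = ⟨T.dot (rx φ) M, T.dot (ry φ) M, T.dot (rz φ) M⟩ := by
  have e : M = M.x • (⟨1, 0, 0⟩ : T R) + (M.y • (⟨0, 1, 0⟩ : T R) + M.z • (⟨0, 0, 1⟩ : T R)) := by
    refine T.ext ?_ ?_ ?_ <;> simp
  conv_lhs => rw [e, h.add, h.add, h.smul, h.smul, h.smul]
  refine T.ext ?_ ?_ ?_ <;>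
  simp only [rx, ry, rz, T.dot, T.add_x, T.add_y, T.add_z, T.smul_x, T.smul_y, T.smul_z] <;> ring

theorem cols (h : Rt φ) (L : T R) :
    (φ L).x • rx φ + ((φ L).y • ry φ + (φ L).z • rz φ) = L := by
  have h1 := h.dot ⟨1, 0, 0⟩ L
  have h2 := h.dot ⟨0, 1, 0⟩ L
  have h3 := h.dot ⟨0, 0, 1⟩ L
  simp only [T.dot, one_mul, zero_mul, add_zero, zero_add] at h1 h2 h3
  refine T.ext ?_ ?_ ?_
  · simp only [rx, ry, rz, T.add_x, T.smul_x]; linear_combination h1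
  · simp only [rx, ry, rz, T.add_y, T.smul_y]; linear_combination h2
  · simp only [rx, ry, rz, T.add_z, T.smul_z]; linear_combination h3

theorem Sym_lin3 (W : Sym R) (a b c : R) (u v w : T R) :
    W.ap (a • u + (b • v + c • w)) = a • W.ap u + (b • W.ap v + c • W.ap w) := by
  refine T.ext ?_ ?_ ?_ <;>
  simp only [Sym.ap, T.add_x, T.add_y, T.add_z, T.smul_x, T.smul_y, T.smul_z] <;> ring

theorem Sym_symm (W : Sym R) (u v : T R) : T.dot u (W.ap v) = T.dot v (W.ap u) := by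
  simp only [Sym.ap, T.dot]; ring

theorem rotS_ap (h : Rt φ) (W : Sym R) (L : T R) : (rotS φ W).ap (φ L) = φ (W.ap L) := by
  rw [rows h (W.ap L)]
  conv_rhs => rw [← cols h L, Sym_lin3]
  have d3 : ∀ (p : T R) (a b c : R) (u v w : T R), T.dot p (a • u + (b • v + c • w)) =
      a * T.dot p u + (b * T.dot p v + c * T.dot p w) := by
    intro p a b c u v w
    simp only [T.dot, T.add_x, T.add_y, T.add_z, T.smul_x, T.smul_y, T.smul_z]; ring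
  simp only [d3]
  rw [Sym_symm W (ry φ) (rx φ), Sym_symm W (rz φ) (rx φ), Sym_symm W (rz φ) (ry φ)]
  refine T.ext ?_ ?_ ?_ <;> simp only [Sym.ap, rotS] <;> ring

theorem Mat_dot (A : Mat R) (u v : T R) : T.dot (A.apT u) v = T.dot u (A.ap v) := by
  simp only [Mat.ap, Mat.apT, T.dot, T.add_x, T.add_y, T.add_z, T.smul_x, T.smul_y, T.smul_z]
  ring

theorem rotM_ap {ψ : T R → T R} (h : Rt φ) (hψ : Rt ψ) (A : Mat R) (N : T R) :
    (rotM φ ψ A).ap (ψ N) = φ (A.ap N) := by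
  rw [rows h (A.ap N)]
  simp only [Mat.ap, rotM, hψ.dot]
  refine T.ext ?_ ?_ ?_
  · exact Mat_dot A _ _
  · exact Mat_dot A _ _
  · exact Mat_dot A _ _

theorem rotM_apT {ψ : T R → T R} (h : Rt φ) (hψ : Rt ψ) (A : Mat R) (L : T R) :
    (rotM φ ψ A).apT (φ L) = ψ (A.apT L) := by
  have l3 : ∀ (a b c : R) (u v w : T R), A.apT (a • u + (b • v + c • w)) =
      a • A.apT u + (b • A.apT v + c • A.apT w) := by
    intro a b c u v w
    refine T.ext ?_ ?_ ?_ <;>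
    simp only [Mat.apT, T.add_x, T.add_y, T.add_z, T.smul_x, T.smul_y, T.smul_z] <;> ring
  conv_rhs => rw [← cols h L, l3, hψ.add, hψ.add, hψ.smul, hψ.smul, hψ.smul]
  rfl

/-- rotated parameters -/
def rotP (g h : Qt R) (D : Par R) : Par R :=
  ⟨rotS (Qt.ad g) D.W, rotS (Qt.ad h) D.U, rotM (Qt.ad g) (Qt.ad h) D.A, D.e, D.f, D.l⟩

theorem cmp_act {g h : Qt R} (hg : Qt.dot g g = 1) (hh : Qt.dot h h = 1) (D : Par R)
    (x y : Qt R) : Cmp (Qt.ad g) (Qt.ad h) D (rotP g h D) x y (act g h x) (act g h y) := by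
  have k1 : ∀ z L, Qt.ad (act g h z) (Qt.ad g L) = Qt.ad h (Qt.ad z L) := by
    intro z L
    rw [act, ad_mul, ad_mul]
    change Qt.ad h (Qt.ad z (Qt.adT g (Qt.ad g L))) = _
    rw [adT_ad hg]
  have k2 : ∀ z N, Qt.adT (act g h z) (Qt.ad h N) = Qt.ad g (Qt.adT z N) := by
    intro z N
    rw [Qt.adT, act, conj_mul, conj_mul, conj_conj, ad_mul, ad_mul]
    change Qt.ad g (Qt.ad z.conj (Qt.adT h (Qt.ad h N))) = _
    rw [adT_ad hh]
    rfl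
  exact
    { hφ := rt_ad hg
      hψ := rt_ad hh
      x1 := k1 x
      x2 := k2 x
      y1 := k1 y
      y2 := k2 y
      W := rotS_ap (rt_ad hg) D.W
      U := rotS_ap (rt_ad hh) D.U
      A := rotM_ap (rt_ad hg) (rt_ad hh) D.A
      AT := rotM_apT (rt_ad hg) (rt_ad hh) D.A
      e := rfl
      f := rfl
      l := rfl }

/-- **Equivariance of the curvature polynomial.** -/
theorem PS_act {g h : Qt R} (hg : Qt.dot g g = 1) (hh : Qt.dot h h = 1) (D : Par R)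
    (v x y : Qt R) (α β Γ : M6 R) :
    PS 0 1 (rotP g h D) (act g h v) (act g h x) (act g h y) (bl (Qt.ad g) α) (bl (Qt.ad g) β)
      (bl (Qt.ad g) Γ) = PS 0 1 D v x y α β Γ := by
  have hc := cmp_act hg hh D x y
  simp only [PS, act_conj_mul hg hh]
  exact bl_PM (rt_ad hg) (ad_adT hg) ⟨K0_lin _ _ _ _ _ _, K1_lin _ _ _ _ _ _⟩
    ⟨K0_lin _ _ _ _ _ _, K1_lin _ _ _ _ _ _⟩ (K0_nat hc _ _ _) (K1_nat hc _ _ _)
    (K2_nat hc _ _ _) α β Γ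

end ring

end H498HS.Eqv
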